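import Mathlib
import Pool.Agent.K4H88.Rounds.Main

/-!
# 3SUM: linear tests in few rounds

The input is a list of `n` distinct integers, of any size; is one of them the sum of two others?

The computations are linear decision trees with `r` rounds (`RTree`). In every round the signs of
arbitrarily many affine functions `∑ L_u x_u + b` of ALL the `n` numbers are determined, with
arbitrary real coefficients; the affine functions of a round may depend, in an arbitrary way, on the
outcomes of the previous rounds, but not on each other's. The cost is the total number of tests.
Without a bound for the number of rounds `O (n log ^ 2 n)` linear tests suffice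
(Kane, Lovett, Moran).

We show: if a random linear decision tree with `r` rounds always gives the right answer, and the expected
number of tests is at most `T ≥ n` for each list without a solution, then
`n ^ (r + 2) ≤ 120 (6 T) ^ r`, i.e. `T ≥ n ^ (1 + 2 / r) / (6 * 120 ^ (1 / r))`.
So one needs `Ω (n ^ 3)` tests in one round, and `Ω (n ^ 2)` tests in two rounds.

Proof. The hyperplanes `x_i + x_j = x_k` have at least `∏_{k < n} (k (k - 1) / 2 + 1) ≥ (n! ) ^ 2 / 8 ^ n`
cells: if all sums of two of the first `k` numbers are different then the next number can be put in
any of the intervals between them. Choose a generic integral point in each of the cells, and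
multiply all of them by the same large number; then the constants `b` do not matter any more. A leaf
which is reached by points of two different cells is also reached by a point with distinct
coordinates on a hyperplane which separates these cells, as the inputs of a leaf form a convex cone;
but there the answer is different. By the Sauer-Shelah lemma, `C` linear functions have at most
`∑_{i ≤ n} C(C, i) ≤ (e C / n) ^ n` sign vectors without zeros, so at most `(e C / n) ^ (n r)` points
in different leaves have cost at most `C`. Take `C = 2 T`.
-/

set_option autoImplicit false

namespace Pool.Agent.Results.MP_13bec0_lc.FewRounds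

open Finset Pool.Agent.K4H88.Ter Pool.Agent.K4H88.Rounds

/-- Let `F`, `μ` be a random linear decision tree with `r` rounds for lists of `n ≥ 1` integers, which
always gives the right answer for lists of distinct integers. If for each list of distinct integers
without a solution the expected number of tests is at most `T`, where `T ≥ n`, then
`n ^ (r + 2) ≤ 120 (6 T) ^ r`. -/
theorem result : ∀ n r : ℕ, 1 ≤ n → ∀ (Ω : Type) [Fintype Ω] (μ : Ω → ℝ), (∀ ω, 0 ≤ μ ω) →
    ∑ ω, μ ω = 1 → ∀ (F : Ω → RTree n r) (T : ℝ), (n : ℝ) ≤ T →
      (∀ ω, ∀ x : Fin n → ℤ, Function.Injective x → ((F ω).eval x = true ↔ HasSum3 x)) →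
      (∀ x : Fin n → ℤ, Function.Injective x → ¬ HasSum3 x → ∑ ω, μ ω * (F ω).cost x ≤ T) →
      (n : ℝ) ^ (r + 2) ≤ 120 * (6 * T) ^ r :=
  fun _ _ hn _ _ μ h0 h1 F T hT hF hc => main hn μ h0 h1 F T hT hF hc

end Pool.Agent.Results.MP_13bec0_lc.FewRounds
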