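import Mathlib
import Pool.Agent.K4H88.Lin.Main

/-!
# 3SUM on the domain `{-n^3, …, n^3}`: at least `n^3 / 1000` linear tests, also with bounded error

The input is a list of `n` distinct integers of absolute value at most `n ^ 3` (the domain of the
problem); is one of them the sum of two others?

The computations: `m` affine functions `∑ L_u x_u + β` of ALL the `n` numbers are chosen, with
arbitrary real coefficients, and an arbitrary Boolean function of their `m` signs
(negative, zero, positive) is the answer. All this may be random, with an arbitrary joint
distribution, and the answer may be wrong with probability at most `η` on every input.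

We show `(1 - 2 η) n ^ 3 ≤ 1000 m` (`n ≥ 8`). This is sharp up to the factor: the
`n (n - 1) (n - 2) / 2` signs of `x_i + x_j - x_k` are enough. As the function of the signs is
arbitrary, this is a bound for the number of different tests in every kind of computation: the number of nodes
of linear decision trees (with repetitions counted once) and of linear branching programs, and the
number of gates which read the numbers in threshold circuits of any depth; it is cubic, although
decision trees with `O (n log ^ 2 n)` linear tests on each path exist (Kane, Lovett, Moran).

Proof. Let `q = ⌊n / 4⌋`, `R = ⌊n ^ 3 / 14⌋`. Take `q` numbers `7 a_i + 1` with random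
`0 ≤ a_i < R`, `q` numbers `7 b_k + 2`, random too, except that at one place `b_k = a_i + a_j`, or
`b_k = a_i + a_j + 1`; the other numbers are `≡ 5` modulo `7`. Typically this is an input with, or
without, a solution. An affine function with the coefficients `α_i`, `γ_k` at these places tells
these two inputs apart only if its value at the first one lies in a certain interval of length
`7 |γ_k|`. If one of the coefficients `7 (α_i + γ_k)`, `7 (α_j + γ_k)`, `7 α_v`, `7 γ_v` of the other random
parameters is at least half as long as this interval, then this has probability at most `3 / R`. If not,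
then `i, j, k` can be read off from the coefficients: `γ_k` is large, `α_i` and `α_j` are close to `-γ_k`,
and all the others are small. So at most `2 + 3 q ^ 2 (q - 1) / R = O(1)` of the
`q ^ 2 (q - 1)` (ordered) choices of `i, j, k` are served, on average, by one test.
-/

set_option autoImplicit false

namespace Pool.Agent.Results.MP_13bec0_lc.LinearTests

open Finset Pool.Agent.K4H88.Ter Pool.Agent.K4H88.Lin

open Classical in
/-- The probability that the answer for the input `x` is wrong. -/
noncomputable def errorProb {n m : ℕ} {Ω : Type} [Fintype Ω] (μ : Ω → ℝ)
    (L : Ω → Fin m → Fin n → ℝ) (β : Ω → Fin m → ℝ) (g : Ω → (Fin m → SignType) → Bool)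
    (x : Fin n → ℤ) : ℝ :=
  ∑ ω, if (g ω (signs (L ω) (β ω) x) = true ↔ HasSum3 x) then 0 else μ ω

/-- Let `n ≥ 8`, and let `m` affine functions of `n` numbers and a Boolean function of their signs be
chosen at random (distribution `μ`). If for every list of `n` distinct integers of absolute value at
most `n ^ 3` the probability of a wrong answer (is one of the numbers the sum of two others?) is at
most `η`, then `(1 - 2 η) n ^ 3 ≤ 1000 m`. -/
theorem result : ∀ n m : ℕ, 8 ≤ n → ∀ (Ω : Type) [Fintype Ω] (μ : Ω → ℝ), (∀ ω, 0 ≤ μ ω) →
    ∑ ω, μ ω = 1 → ∀ (η : ℝ) (L : Ω → Fin m → Fin n → ℝ) (β : Ω → Fin m → ℝ)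
      (g : Ω → (Fin m → SignType) → Bool),
      (∀ x : Fin n → ℤ, Function.Injective x → (∀ u, |x u| ≤ (n : ℤ) ^ 3) →
        errorProb μ L β g x ≤ η) →
      (1 - 2 * η) * (n : ℝ) ^ 3 ≤ 1000 * m := by
  classical
  intro n m hn Ω _ μ h0 h1 η L β g h
  refine main hn μ h0 h1 η L β g fun x hx hb s hs => ?_
  refine le_trans ?_ (h x hx hb)
  unfold errorProb
  have e1 : ∑ ω ∈ s, μ ω = ∑ ω ∈ s,
      if (g ω (signs (L ω) (β ω) x) = true ↔ HasSum3 x) then 0 else μ ω :=
    sum_congr rfl fun ω hω => (if_neg (hs ω hω)).symm
  rw [e1]
  refine sum_le_univ_sum_of_nonneg fun ω => ?_
  split_ifs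
  · exact le_refl _
  · exact h0 ω

end Pool.Agent.Results.MP_13bec0_lc.LinearTests
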