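import Mathlib
import Pool.Agent.K4H88.TF.Sum

/-!
# 3SUM: programs which test tensor formulas (for instance quantum formulas)

The input consists of `2 n` distinct integers of absolute value at most `(2 n) ^ 3`; is one of them the
sum of two others? The items of the input are each of the first `n` numbers, and the list of the
last `n` numbers.

In a tensor formula (`Fml`) every wire carries a vector of `ℝ ^ d`. A leaf computes an arbitrary vector
which depends on one item, or on `w` words of `c log₂ (2 n)` bits (each of them an arbitrary function
of one item). A gate computes an arbitrary function of two vectors which is affine in each of them;
this function may again depend, in an arbitrary way, on one item, or on `w` words. There are also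
gates `sym` of any fan-in `k`: they test for each of their inputs whether an affine function is
positive, and compute an arbitrary vector which depends on the number of positive ones. All numbers are
real, of any size. The size is the number of leaves and gates which see something of the input,
plus the number of wires which lead to gates `sym`. In a branching program (`Prog`) every inner node
tests whether an affine function of the value of a tensor formula is positive; the size of the
program is the number of its inner nodes plus the sizes of these formulas.

For instance, a wire may carry the mixed state of a quantum system with `k` levels, a hermitian matrix
with `d = k ^ 2` real coordinates. The quantum operations which are applied to the states of two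
independent systems are bilinear; so quantum formulas of fan-in `2`, with arbitrary quantum operations
as gates, controlled in any way by the input, are tensor formulas. The same holds for bilinear
computations with `k × k` matrices such as products of matrices which depend on the input in any
order, and for tensor networks which are contracted along a tree with intermediate tensors of size
`d`.

We show that random branching programs of size at most `s` with error probability at most `1 / 3` need
`n ^ 2 ≤ 25000 w (d ^ 3 + c w) s`. So for `d, w ≤ n ^ o(1)` they need size `n ^ (2 - o(1))`.

Proof. Each of the first `n` numbers can ask for about `n log₂ n / 7` bits which are encoded in the
list of the last `n` numbers (helper697). We count the functions of this number which arise when the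
other items are fixed. If `r` leaves and gates of a formula see this number, then what happens
between them on a path without branchings is an affine function of vectors, or an affine function of
one bit (the outcome of an affine threshold test), and at a branching an arbitrary biaffine
function; so the function of the number is given by `O (r)` parameters of dimension `O (d ^ 3)` and
Warren's theorem gives a bound `n ^ O (r (d ^ 3 + c w))`.
-/

set_option autoImplicit false

namespace Pool.Agent.Results.MP_13bec0_lc.TensorPrograms

open Pool.Agent.TH697.Form (IsProb)
open Pool.Agent.TH697.Row (ApproximatesOn)
open Pool.Agent.TH697.Form.ThreeSum (Item Valid threeSum)
open Pool.Agent.K4H88.TF (Test Prog)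

theorem result : ∀ n c w d : ℕ, 1000 ≤ n → 1 ≤ c → 1 ≤ w → 1 ≤ d →
    ∀ (Ω : Type) [Fintype Ω] (μ : Ω → ℝ), IsProb μ →
      ∀ (s : ℕ) (B : Ω → Prog (Test (Option (Fin n)) (Item n n) w ((2 * n) ^ c) d) Test.size s),
        ApproximatesOn μ (fun ω => (B ω).eval Test.accepts) (Valid n n) (threeSum n n) →
        (n : ℝ) ^ 2 ≤ 25000 * w * (d ^ 3 + c * w) * s :=
  fun _ _ _ _ hn hc hw hd _ _ μ hμ s B hB => Pool.Agent.K4H88.TF.bound hn hc hw hd μ hμ s B hB

end Pool.Agent.Results.MP_13bec0_lc.TensorPrograms
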