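import Mathlib
import Pool.Agent.K4H88.Ter.Main

/-!
# 3SUM: computations which look at three numbers at a time must look at quadratically many triples

The input is a list of `n` distinct integers, of any size; is one of them the sum of two others?

The computations are decision trees (`Tree`). A test looks at three numbers `a`, `b`, `c` of the input
and gets to know the signs of the values of finitely many polynomials in three variables, of any
degree and with arbitrary real coefficients, at `(a, b, c)`; so a test may be an arbitrary semialgebraic
predicate of three of the numbers, such as the comparisons `a + b < c` and `a < b`, the results of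
programs with sums, products, quotients, roots and branchings and so on. The computation may
also, at any time and without any cost, get to know the residues of all numbers of the list modulo
any positive integer (so hashing modulo primes is free), and all tests which look at only one or two
different numbers (sorting) are free, too. We count only the triples, i.e. the sets of three different
places of the list which are looked at by one test; further tests of the same triple are free.

We show: if a random decision tree errs with probability at most `η ≤ 1 / 2` on each list of `n` distinct
integers with at most one solution, then there is a list without a solution for which the expected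
number of the triples is at least `(1 - 2 η) (n - 2) ^ 2 / 16`.

Proof. Let `α ≫ β ≫ δ ≫ ε ≫ 1` be multiples of all moduli. For a pair `(i₀, j₀)` consider the numbers
`a_i = α + i δ + 4 (i - i₀) ^ 2 ε`, `b_j = β + j δ + 4 (j - j₀) ^ 2 ε`,
`c_k = α + β + k δ + (k - i₀ - j₀) ^ 2 ε`, with `i, j < m` and `k < n - 2 m`, `m = ⌊(n + 1) / 4⌋`. Here
`a_i + b_j = c_k` iff `k = i + j` and `4 (i - i₀) ^ 2 + 4 (j - j₀) ^ 2 = (i + j - i₀ - j₀) ^ 2`, i.e.
iff `(i, j, k) = (i₀, j₀, i₀ + j₀)`. The list without a solution is the one for `(0, 0)`, with
`(k ^ 2 - 1) ε` instead of `k ^ 2 ε`. For three places which are not those of the solution, the three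
numbers of one list are obtained from those of the other one by changing `α`, `β`, `δ` by multiples of
`ε` and by multiplying `ε` by a positive number. This does not change the signs of polynomials, as
these are determined by the leading terms. So the two lists can be distinguished only by looking at
the triple of the solution, and there are `m ^ 2` of these triples.
-/

set_option autoImplicit false

namespace Pool.Agent.Results.MP_13bec0_lc.TernaryTests

open Finset Pool.Agent.K4H88.Ter

open Classical in
/-- Let `F`, `μ` be a random decision tree for lists of `n ≥ 2` integers. Suppose that for each list of
distinct integers with at most one solution the error probability is at most `η ≤ 1 / 2`, and that for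
each list of distinct integers without a solution the expected number of triples which are looked
at is at most `T`. Then `(1 - 2 η) (n - 2) ^ 2 ≤ 16 T`. -/
theorem result : ∀ n : ℕ, 2 ≤ n → ∀ (Ω : Type) [Fintype Ω] (μ : Ω → ℝ), (∀ ω, 0 ≤ μ ω) →
    ∑ ω, μ ω = 1 → ∀ (F : Ω → Tree n) (η T : ℝ), η ≤ 1 / 2 →
      (∀ x : Fin n → ℤ, Function.Injective x → AtMostOne x →
        ∑ ω ∈ univ.filter (fun ω => (F ω).eval x ≠ decide (HasSum3 x)), μ ω ≤ η) →
      (∀ x : Fin n → ℤ, Function.Injective x → ¬ HasSum3 x →
        ∑ ω, μ ω * ((F ω).triples x).card ≤ T) →
      (1 - 2 * η) * ((n : ℝ) - 2) ^ 2 ≤ 16 * T :=
  fun _ hn _ _ μ h0 h1 F η T hη he hc => random_bound hn μ h0 h1 F η T hη he hc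

end Pool.Agent.Results.MP_13bec0_lc.TernaryTests
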